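import Pool.Agent.Y554.SN.Top

/-!
Clustering of the spectral sample of the square crossings of critical bond percolation on `ℤ²`.

Files of the proof: `Y554/SN` (statements of the parts, assembly), `Y197/NW` (sharp noise
sensitivity), `Y532/SN`, `Y785/SN`, `Y67/SN` (sharp two-layer arm probabilities), `Y381/SN`,
`Y50/SN`, `Y469/SN`, `Y185/SN`, `Y312/SN`, `Y993/SN` (annuli inside the square, at the sides and at
the corners, chains of annuli), `Y286/SN` (Fourier analysis), `Y179/SN` (sums). They use the arm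
exponents of `ℤ²` of the starting library.
-/

set_option autoImplicit false

namespace Pool.Agent.Results.MP_e0a489_pr.SpectralClustering

open Finset

/-- Vertices of the square lattice. -/
abbrev Vertex := ℤ × ℤ

/-- Edges: `(x, y, true)` joins `(x, y)` to `(x + 1, y)` and `(x, y, false)` joins `(x, y)` to
`(x, y + 1)`. -/
abbrev Edge := ℤ × ℤ × Bool

/-- First endpoint of an edge. -/
def src (e : Edge) : Vertex := (e.1, e.2.1)

/-- Second endpoint of an edge. -/
def tgt (e : Edge) : Vertex := if e.2.2 then (e.1 + 1, e.2.1) else (e.1, e.2.1 + 1)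

/-- `u` and `v` are joined by an edge of `F`. -/
def Adj (F : Set Edge) (u v : Vertex) : Prop :=
  ∃ e ∈ F, (src e = u ∧ tgt e = v) ∨ (src e = v ∧ tgt e = u)

/-- `u` and `v` are joined by a path of edges of `F`. -/
def Conn (F : Set Edge) (u v : Vertex) : Prop := Relation.ReflTransGen (Adj F) u v

/-- The set `𝓘_n` of the edges in the square `[-n, n]²`. -/
noncomputable def edges (n : ℕ) : Finset Edge :=
  (Icc (-(n : ℤ)) n ×ˢ (Icc (-(n : ℤ)) n ×ˢ univ)).filter
    (fun e => (tgt e).1 ≤ n ∧ (tgt e).2 ≤ n)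

/-- Expectation under `P_{1/2}`: a configuration is the set `F ⊆ 𝓘_n` of its open edges. -/
noncomputable def expect (n : ℕ) (h : Finset Edge → ℝ) : ℝ :=
  (∑ F ∈ (edges n).powerset, h F) / 2 ^ (edges n).card

open Classical in
/-- The function `g_n`: indicator of an open path from the left side to the right side. -/
noncomputable def g (n : ℕ) (F : Finset Edge) : ℝ :=
  if ∃ y y' : ℤ, |y| ≤ n ∧ |y'| ≤ n ∧ Conn (↑F : Set Edge) (-(n : ℤ), y) ((n : ℤ), y') then 1 else 0

/-- The character `χ_S = ∏_{e ∈ S} ω_e`, with `ω_e = 1` if `e` is open and `ω_e = -1` if not. -/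
noncomputable def chi (S F : Finset Edge) : ℝ := ∏ e ∈ S, (if e ∈ F then 1 else -1)

/-- The Fourier-Walsh coefficient of `g_n` at `S`. -/
noncomputable def coef (n : ℕ) (S : Finset Edge) : ℝ := expect n (fun F => g n F * chi S F)

open Classical in
/-- Probability of the event `A` for the spectral sample of `g_n`. -/
noncomputable def specP (n : ℕ) (A : Finset Edge → Prop) : ℝ :=
  ∑ S ∈ (edges n).powerset.filter A, (coef n S) ^ 2 / expect n (fun F => (g n F) ^ 2)

/-- Two open crossings of the annulus between the boundaries of `[-a, a]²` and `[-b, b]²` which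
are not connected in it (`F` is the set of the open edges of the annulus). -/
def FourArms (a b : ℕ) (F : Finset Edge) : Prop :=
  ∃ u u' v v' : Vertex, max |u.1| |u.2| = a ∧ max |u'.1| |u'.2| = a ∧
    max |v.1| |v.2| = b ∧ max |v'.1| |v'.2| = b ∧
    Conn (↑F : Set Edge) u v ∧ Conn (↑F : Set Edge) u' v' ∧ ¬ Conn (↑F : Set Edge) u u'

open Classical in
/-- The four-arm probability `α₄(a, b)`; by the usual convention it is `1` if `b < a`. -/
noncomputable def alpha4 (a b : ℕ) : ℝ :=
  if a ≤ b then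
    (((edges b \ edges a).powerset.filter (FourArms a b)).card : ℝ) / 2 ^ (edges b \ edges a).card
  else 1

/-- `Φ(r, R) = (R / r) α₄(r, R)`. -/
noncomputable def Phi (r R : ℝ) : ℝ := R / r * alpha4 ⌊r⌋₊ ⌊R⌋₊

/-- A vertex as a point of the Euclidean plane. -/
noncomputable def pt (v : Vertex) : EuclideanSpace ℝ (Fin 2) := !₂[(v.1 : ℝ), (v.2 : ℝ)]

/-- The Euclidean diameter of a set of edges. -/
noncomputable def diam (S : Finset Edge) : ℝ :=
  Metric.diam {x : EuclideanSpace ℝ (Fin 2) | ∃ e ∈ S, x = pt (src e) ∨ x = pt (tgt e)}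

/-- **Clustering of the spectral sample** (bond percolation on `ℤ²`): there is a constant `C` such
that for every `n ≥ 1` and all real numbers `1 ≤ r ≤ r₀`
`P̂(|S| < r² α₄(r) and diam S ≥ r₀) ≤ C Φ(r, n)² Φ(r, r₀)²`. -/
theorem result : ∃ C : ℝ, ∀ n : ℕ, 1 ≤ n → ∀ r r₀ : ℝ, 1 ≤ r → r ≤ r₀ →
    specP n (fun S => (S.card : ℝ) < r ^ 2 * alpha4 1 ⌊r⌋₊ ∧ r₀ ≤ diam S) ≤
      C * Phi r n ^ 2 * Phi r r₀ ^ 2 := by
  obtain ⟨C, H⟩ := Pool.Agent.Y554.SN.Res.main2 Pool.Agent.Y554.SN.chain Pool.Agent.Y286.SN.one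
    Pool.Agent.Y286.SN.pair Pool.Agent.Y179.SN.sumqc Pool.Agent.Y554.SN.af4
    Pool.Agent.Y50.SN.af4L
  refine ⟨C, fun n hn r r₀ h1 h2 => ?_⟩
  rw [mul_assoc]
  exact H n hn r r₀ h1 h2

end Pool.Agent.Results.MP_e0a489_pr.SpectralClustering
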